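import Mathlib
import Pool.Agent.Q52.Hm.Defs
import Pool.Agent.Q52.Hm.Clos

set_option autoImplicit false

/-!
# A tensor whose border subrank exceeds its Hilbert-Mumford subrank

`T = e₀⊗(e₀⊗e₁⊗e₀ + e₁⊗e₀⊗e₁) + e₁⊗(e₀⊗e₀⊗e₀ + e₀⊗e₁⊗e₁)
  + e₂⊗(e₀⊗e₁⊗e₁ + e₁⊗e₀⊗e₀ + e₁⊗e₁⊗e₁)`
is a tensor in `ℂ³ ⊗ ℂ² ⊗ ℂ² ⊗ ℂ² ⊂ (ℂ³)^{⊗4}`. The unit tensor `I₂` is a limit of tensors of its
orbit, but no one-parameter subgroup moves a tensor of the orbit to `I₂` (or to `I₃`).
-/

namespace Pool.Agent.Results.MP_5e02e7_ag.BorderAboveHilbertMumford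

open Q52.Hm

/-- The tensor. -/
def T : Tensor 4 3 := fun b =>
  (if b = ![0, 0, 1, 0] then 1 else 0) + (if b = ![0, 1, 0, 1] then 1 else 0)
    + (if b = ![1, 0, 0, 0] then 1 else 0) + (if b = ![1, 0, 1, 1] then 1 else 0)
    + (if b = ![2, 0, 1, 1] then 1 else 0) + (if b = ![2, 1, 0, 0] then 1 else 0)
    + (if b = ![2, 1, 1, 1] then 1 else 0)

theorem T_eq : T = TT := by
  funext b
  have h : TT b = (if b = cc 0 then 1 else 0) + (if b = cc 1 then 1 else 0)
      + (if b = cc 2 then 1 else 0) + (if b = cc 3 then 1 else 0) + (if b = cc 4 then 1 else 0)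
      + (if b = cc 5 then 1 else 0) + (if b = cc 6 then 1 else 0) := by
    rw [TT, Fin.sum_univ_seven]
  rw [h]
  rfl

/-- There are `d ≥ 2`, `n ≥ 1` and a tensor `T ∈ (ℂⁿ)^{⊗d}` whose border subrank is strictly larger
than its Hilbert-Mumford subrank, also when the one-parameter subgroups may be applied to all the
tensors `g T` of the orbit. An example is the tensor `T` above, with `d = 4` and `n = 3`. -/
theorem result :
    (hmSubrankLiteral T < borderSubrank T ∧ hmSubrank T < borderSubrank T) ∧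
    (hmSubrank T ≤ 1 ∧ borderSubrank T = 2) ∧
    ∃ (d n : ℕ) (_ : 2 ≤ d) (_ : 1 ≤ n) (X : Tensor d n), hmSubrankLiteral X < borderSubrank X ∧
      hmSubrank X < borderSubrank X := by
  have hb : borderSubrank T = 2 := by
    rw [T_eq, borderSubrank]
    apply le_antisymm
    · refine csSup_le' ?_
      rintro r ⟨hr, hmem⟩
      by_contra hcon
      have : r = 3 := by omega
      subst this
      exact unit_three_notMem hmem
    · exact le_csSup ⟨3, fun r hr => hr.1⟩ ⟨by norm_num, unit_two_mem⟩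
  have hrob : hmSubrank T ≤ 1 := by
    rw [T_eq, hmSubrank]
    refine csSup_le' ?_
    rintro r ⟨hr, g, l, hT⟩
    by_contra hcon
    have h2 : r = 2 ∨ r = 3 := by omega
    rcases h2 with rfl | rfl
    · exact not_tendsto_two g l hT
    · refine unit_three_notMem (mem_closure_of_tendsto hT (Filter.Eventually.of_forall fun t => ?_))
      refine ⟨fun i => l.hom t i * g i, ?_⟩
      rw [act_act]
      rfl
  have hlit : hmSubrankLiteral T ≤ hmSubrank T := by
    rw [hmSubrankLiteral, hmSubrank]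
    refine csSup_le' ?_
    rintro r ⟨hr, l, hT⟩
    refine le_csSup ⟨3, fun r hr => hr.1⟩ ⟨hr, fun _ => 1, l, ?_⟩
    have hone : act (mats (fun _ : Fin 4 => (1 : GL (Fin 3) ℂ))) T = T := by
      funext a
      simp only [act, mats]
      rw [Finset.sum_eq_single a]
      · simp
      · intro b _ hb'
        have : ∃ q, a q ≠ b q := by
          by_contra hcon
          push Not at hcon
          exact hb' (funext hcon).symm
        obtain ⟨q, hq⟩ := this
        rw [Finset.prod_eq_zero (Finset.mem_univ q) (by simp [hq]), zero_mul]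
      · intro h; exact absurd (Finset.mem_univ _) h
    rw [hone]
    exact hT
  have h1 : hmSubrankLiteral T < borderSubrank T ∧ hmSubrank T < borderSubrank T := by
    rw [hb]; omega
  exact ⟨h1, ⟨hrob, hb⟩, 4, 3, by norm_num, by norm_num, T, h1⟩

end Pool.Agent.Results.MP_5e02e7_ag.BorderAboveHilbertMumford
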